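import Pool.Agent.Helper46.T6.Stmts

/-!
# PSC: continuity, positivity and bound of the gauge fixing function (degree `d`)
-/

set_option autoImplicit false

open Finset MeasureTheory Filter Topology

namespace Pool.Agent.Helper46.T6

open Pool.Agent.Helper15.T4 (IsPM PM cov IsMat nsq po)
open Pool.Agent.Helper15.T6

namespace PSC19

lemma nsq_nonneg {ι : Type} [Fintype ι] (x : ι → ℝ) : 0 ≤ nsq x :=
  Finset.sum_nonneg fun _ _ => sq_nonneg _

lemma cont_nsq {ι : Type} [Fintype ι] : Continuous (fun x : ι → ℝ => nsq x) := by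
  unfold nsq
  fun_prop

lemma cont_pt {d : ℕ} {J : Type} {K : ℕ} (φ : Fin K × Fin 2 ≃ J) :
    Continuous (fun O : Fin K → Md d => pt φ O) := by
  unfold pt
  refine continuous_pi fun a => continuous_finsetProd _ fun p _ => ?_
  exact ((continuous_apply_apply _ _).comp (continuous_apply p)).div_const _

variable (d K N : ℕ)

/-- the integrand -/
noncomputable def Fx (s : ℤˣ) (π : Equiv.Perm (Fin K × Fin 2)) (x : (Fin K × Fin 2 → Fin d) → ℝ)
    (O : Fin K → GO d) : ℝ :=
  Real.exp (-(N : ℝ) * nsq (fun a => x a - ((s : ℤ) : ℝ) * pt π (fun p => ((O p : GO d) : Md d)) a))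

lemma cont_Fx (s : ℤˣ) (π : Equiv.Perm (Fin K × Fin 2)) :
    Continuous (fun z : ((Fin K × Fin 2 → Fin d) → ℝ) × (Fin K → GO d) =>
      Fx d K N s π z.1 z.2) := by
  unfold Fx
  have h1 : Continuous (fun O : Fin K → GO d => pt π (fun p => ((O p : GO d) : Md d))) :=
    (cont_pt π).comp (continuous_pi fun p => continuous_subtype_val.comp (continuous_apply p))
  have h2 : Continuous (fun z : ((Fin K × Fin 2 → Fin d) → ℝ) × (Fin K → GO d) =>
      (fun a => z.1 a - ((s : ℤ) : ℝ) * pt π (fun p => ((z.2 p : GO d) : Md d)) a)) := by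
    refine continuous_pi fun a => ?_
    refine ((continuous_apply a).comp continuous_fst).sub (continuous_const.mul ?_)
    exact (continuous_apply a).comp (h1.comp continuous_snd)
  have h3 := cont_nsq.comp h2
  exact Real.continuous_exp.comp (continuous_const.mul h3)

lemma cont_Fx_right (s : ℤˣ) (π : Equiv.Perm (Fin K × Fin 2)) (x : (Fin K × Fin 2 → Fin d) → ℝ) :
    Continuous (fun O : Fin K → GO d => Fx d K N s π x O) :=
  (cont_Fx d K N s π).comp (g := fun z : ((Fin K × Fin 2 → Fin d) → ℝ) × (Fin K → GO d) =>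
      Fx d K N s π z.1 z.2) (f := fun v => (x, v)) (continuous_const.prodMk continuous_id)

lemma cont_Fx_left (s : ℤˣ) (π : Equiv.Perm (Fin K × Fin 2)) (O : Fin K → GO d) :
    Continuous (fun x : (Fin K × Fin 2 → Fin d) → ℝ => Fx d K N s π x O) :=
  (cont_Fx d K N s π).comp (g := fun z : ((Fin K × Fin 2 → Fin d) → ℝ) × (Fin K → GO d) =>
      Fx d K N s π z.1 z.2) (f := fun x => (x, O)) (continuous_id.prodMk continuous_const)

lemma Fx_pos (s : ℤˣ) (π : Equiv.Perm (Fin K × Fin 2)) (x : (Fin K × Fin 2 → Fin d) → ℝ)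
    (O : Fin K → GO d) : 0 < Fx d K N s π x O := Real.exp_pos _

lemma Fx_le (s : ℤˣ) (π : Equiv.Perm (Fin K × Fin 2)) (x : (Fin K × Fin 2 → Fin d) → ℝ)
    (O : Fin K → GO d) : Fx d K N s π x O ≤ 1 := by
  unfold Fx
  rw [Real.exp_le_one_iff]
  have := nsq_nonneg (fun a => x a - ((s : ℤ) : ℝ) * pt π (fun p => ((O p : GO d) : Md d)) a)
  have hN : (0 : ℝ) ≤ N := Nat.cast_nonneg N
  nlinarith

/-- the measure -/
noncomputable abbrev mu : Measure (Fin K → GO d) := Measure.pi fun _ => hO d

lemma Psid_eq (x : (Fin K × Fin 2 → Fin d) → ℝ) :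
    Psid d K N x = ∑ s : ℤˣ, ∑ π : Equiv.Perm (Fin K × Fin 2), ∫ O, Fx d K N s π x O ∂(mu d K) :=
  rfl

lemma Fx_int (s : ℤˣ) (π : Equiv.Perm (Fin K × Fin 2)) (x : (Fin K × Fin 2 → Fin d) → ℝ) :
    Integrable (fun O => Fx d K N s π x O) (mu d K) := by
  refine (integrable_const (1 : ℝ)).mono' ?_ (Eventually.of_forall fun O => ?_)
  · exact (cont_Fx_right d K N s π x).aestronglyMeasurable
  · rw [Real.norm_eq_abs, abs_of_pos (Fx_pos d K N s π x O)]
    exact Fx_le d K N s π x O

end PSC19

open PSC19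

theorem st_PSC : ST_PSC := by
  intro d K N
  refine ⟨?_, fun x => ?_, fun x => ?_⟩
  · have : Psid d K N = fun x => ∑ s : ℤˣ, ∑ π : Equiv.Perm (Fin K × Fin 2),
        ∫ O, Fx d K N s π x O ∂(mu d K) := by
      funext x; exact Psid_eq d K N x
    rw [this]
    refine continuous_finsetSum _ fun s _ => continuous_finsetSum _ fun π _ => ?_
    refine continuous_of_dominated (bound := fun _ => (1 : ℝ))
      (fun x => (Fx_int d K N s π x).1)
      (fun x => Eventually.of_forall fun O => ?_) (integrable_const (1 : ℝ))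
      (Eventually.of_forall fun O => ?_)
    · rw [Real.norm_eq_abs, abs_of_pos (Fx_pos d K N s π x O)]
      exact Fx_le d K N s π x O
    · exact cont_Fx_left d K N s π O
  · rw [Psid_eq]
    refine Finset.sum_pos (fun s _ => Finset.sum_pos (fun π _ => ?_) Finset.univ_nonempty)
      Finset.univ_nonempty
    rw [integral_pos_iff_support_of_nonneg (fun O => (Fx_pos d K N s π x O).le)
      (Fx_int d K N s π x)]
    have : Function.support (fun O => Fx d K N s π x O) = Set.univ :=
      Set.eq_univ_of_forall fun O => (Fx_pos d K N s π x O).ne'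
    rw [this, measure_univ]
    exact one_pos
  · rw [Psid_eq]
    have h1 : ∀ s π, ∫ O, Fx d K N s π x O ∂(mu d K) ≤ 1 := by
      intro s π
      calc ∫ O, Fx d K N s π x O ∂(mu d K) ≤ ∫ _O, (1 : ℝ) ∂(mu d K) :=
            integral_mono (Fx_int d K N s π x) (integrable_const _) (fun O => Fx_le d K N s π x O)
        _ = 1 := by simp
    calc ∑ s : ℤˣ, ∑ π : Equiv.Perm (Fin K × Fin 2), ∫ O, Fx d K N s π x O ∂(mu d K)
        ≤ ∑ s : ℤˣ, ∑ π : Equiv.Perm (Fin K × Fin 2), (1 : ℝ) :=
          Finset.sum_le_sum fun s _ => Finset.sum_le_sum fun π _ => h1 s π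
      _ = 2 * ((2 * K).factorial : ℝ) := by
          simp only [Finset.sum_const, Finset.card_univ, nsmul_eq_mul, mul_one]
          have h2 : Fintype.card ℤˣ = 2 := by decide
          rw [Fintype.card_perm, Fintype.card_prod, Fintype.card_fin, Fintype.card_fin,
            h2, mul_comm K 2]
          push_cast
          ring

end Pool.Agent.Helper46.T6
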