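import Pool.Agent.Helper15.T6.Stmts

set_option autoImplicit false

/-! Module MJ: the replica model. -/

open Finset

namespace Pool.Agent.Helper19.T6

open Pool.Agent.Helper15.T6

private lemma epsd_comp {d : ℕ} (π : Equiv.Perm (Fin d)) (f : Fin d → Fin d) :
    epsd (fun i => f (π i)) = ((Equiv.Perm.sign π : ℤˣ) : ℤ) * epsd f := by
  unfold epsd
  rw [← Equiv.sum_comp (Equiv.mulRight π), Finset.mul_sum]
  refine Finset.sum_congr rfl fun τ _ => ?_
  have h : ((fun i => f (π i)) = ⇑((Equiv.mulRight π) τ)) ↔ f = ⇑τ := by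
    constructor
    · intro h
      funext i
      have := congrFun h (π.symm i)
      simpa using this
    · intro h
      subst h
      funext i
      simp
  by_cases hf : f = ⇑τ
  · rw [if_pos (h.2 hf), if_pos hf]
    simp [Equiv.Perm.sign_mul, mul_comm]
  · rw [if_neg (fun h' => hf (h.1 h')), if_neg hf, mul_zero]

theorem st_MJ : ST_MJ := by
  intro d J _ _
  refine ⟨?_, ?_⟩
  · intro hev π a
    unfold wJ
    have h1 : ∀ j : J, ((epsd (fun i => a (π i) j) : ℤ) : ℝ) =
        (((Equiv.Perm.sign π : ℤˣ) : ℤ) : ℝ) * ((epsd (fun i => a i j) : ℤ) : ℝ) := by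
      intro j
      rw [epsd_comp π (fun i => a i j)]
      push_cast
      ring
    simp_rw [h1]
    rw [Finset.prod_mul_distrib, Finset.prod_const, Finset.card_univ]
    obtain ⟨m, hm⟩ := hev
    rw [hm, ← two_mul, pow_mul]
    have h2 : ((((Equiv.Perm.sign π : ℤˣ) : ℤ) : ℝ)) ^ 2 = 1 := by
      rcases Int.units_eq_one_or (Equiv.Perm.sign π) with h | h <;> rw [h] <;> norm_num
    rw [h2, one_pow, one_mul]
  · intro x
    unfold PW PJ TJ wJ
    have h1 : ∀ a : Fin d → J → Fin d, (∏ j, ((epsd (fun i => a i j) : ℤ) : ℝ)) =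
        ∑ π : J → Equiv.Perm (Fin d), (if a = fun i j => π j i then
          (∏ j, ((((Equiv.Perm.sign (π j) : ℤˣ) : ℤ)) : ℝ)) else 0) := by
      intro a
      unfold epsd
      push_cast
      rw [Finset.prod_univ_sum]
      simp only [Fintype.piFinset_univ]
      refine Finset.sum_congr rfl fun π _ => ?_
      by_cases h : a = fun i j => π j i
      · rw [if_pos h]
        refine Finset.prod_congr rfl fun j _ => ?_
        rw [if_pos]
        subst h
        rfl
      · rw [if_neg h]
        have : ∃ j : J, ¬ ((fun i => a i j) = ⇑(π j)) := by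
          by_contra hc
          push Not at hc
          apply h
          funext i j
          exact congrFun (hc j) i
        obtain ⟨j, hj⟩ := this
        refine Finset.prod_eq_zero (Finset.mem_univ j) ?_
        rw [if_neg hj]
    simp_rw [h1]
    simp_rw [Finset.sum_mul]
    rw [Finset.sum_comm]
    refine Finset.sum_congr rfl fun π _ => ?_
    rw [Finset.sum_eq_single (fun i j => π j i)]
    · rw [if_pos rfl]
    · intro a _ ha
      rw [if_neg ha, zero_mul]
    · intro h
      exact absurd (Finset.mem_univ _) h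

end Pool.Agent.Helper19.T6
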