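import Pool.Agent.Helper15.T6.Stmts

set_option autoImplicit false

/-! Module SERT: the tilt parameters are positive and the series of the moments converge
(after Helper77/T5/SERT.lean). -/

open Finset MeasureTheory Filter Topology

namespace Pool.Agent.Helper19.T6

open Pool.Agent.Helper15.T6

theorem bern (D : ℝ) (hD : 0 ≤ D) (K : ℕ) : ∃ C : ℝ, 0 ≤ C ∧ ∀ d : ℝ, |d| ≤ D →
    |(1 + d) ^ K - 1 - K * d| ≤ C * d ^ 2 := by
  induction K with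
  | zero => exact ⟨0, le_rfl, fun d _ => by simp⟩
  | succ K ih =>
      obtain ⟨C, hC, h⟩ := ih
      refine ⟨(1 + D) * C + K, by positivity, fun d hd => ?_⟩
      have e : (1 + d) ^ (K + 1) - 1 - ((K + 1 : ℕ) : ℝ) * d =
          (1 + d) * ((1 + d) ^ K - 1 - K * d) + K * d ^ 2 := by
        push_cast; ring
      have h5 : |1 + d| ≤ 1 + D := by
        calc |1 + d| ≤ |(1 : ℝ)| + |d| := abs_add_le _ _
          _ ≤ 1 + D := by rw [abs_one]; linarith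
      rw [e]
      calc |(1 + d) * ((1 + d) ^ K - 1 - K * d) + K * d ^ 2|
          ≤ |(1 + d) * ((1 + d) ^ K - 1 - K * d)| + |(K : ℝ) * d ^ 2| := abs_add_le _ _
        _ = |1 + d| * |(1 + d) ^ K - 1 - K * d| + K * d ^ 2 := by
            rw [abs_mul, abs_of_nonneg (by positivity : (0 : ℝ) ≤ (K : ℝ) * d ^ 2)]
        _ ≤ (1 + D) * (C * d ^ 2) + K * d ^ 2 := by
            gcongr
            exact h d hd
        _ = ((1 + D) * C + K) * d ^ 2 := by ring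

theorem lam_pos (d : ℕ) (hd : 3 ≤ d) (k : ℕ) : 0 < lam d k := by
  have h3 : (3 : ℝ) ≤ d := by exact_mod_cast hd
  have h1 : (0 : ℝ) < (d : ℝ) - 1 := by linarith
  unfold lam
  positivity

theorem lam_le (d : ℕ) (hd : 3 ≤ d) (k : ℕ) : lam d k ≤ ((d : ℝ) - 1) ^ (k + 1) := by
  have h3 : (3 : ℝ) ≤ d := by exact_mod_cast hd
  have h1 : (0 : ℝ) < (d : ℝ) - 1 := by linarith
  unfold lam
  rw [div_le_iff₀ (by positivity)]
  have h : (0 : ℝ) < ((d : ℝ) - 1) ^ (k + 1) := by positivity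
  have hk : (0 : ℝ) ≤ k := by positivity
  nlinarith [mul_nonneg h.le hk]

theorem tau_sub_abs (d : ℕ) (hd : 3 ≤ d) (k : ℕ) :
    |tau d k - 1| ≤ ((d : ℝ) ^ 2 - 1) * (1 / ((d : ℝ) - 1)) ^ (k + 1) := by
  have h3 : (3 : ℝ) ≤ d := by exact_mod_cast hd
  have h1 : (0 : ℝ) < (d : ℝ) - 1 := by linarith
  have hp : (0 : ℝ) < ((d : ℝ) - 1) ^ (k + 1) := by positivity
  have e : tau d k - 1 = ((d : ℝ) * (d - 1) / 2 + (-1) ^ (k + 1) * ((d : ℝ) * (d + 1) / 2 - 1)) /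
      ((d : ℝ) - 1) ^ (k + 1) := by
    unfold tau; ring
  rw [e, abs_div, abs_of_pos hp, one_div, inv_pow, ← div_eq_mul_inv]
  gcongr
  have hA : (0 : ℝ) ≤ (d : ℝ) * (d - 1) / 2 := by positivity
  have hB : (0 : ℝ) ≤ (d : ℝ) * (d + 1) / 2 - 1 := by nlinarith
  calc |(d : ℝ) * (d - 1) / 2 + (-1) ^ (k + 1) * ((d : ℝ) * (d + 1) / 2 - 1)|
      ≤ |(d : ℝ) * (d - 1) / 2| + |(-1) ^ (k + 1) * ((d : ℝ) * (d + 1) / 2 - 1)| := abs_add_le _ _
    _ = (d : ℝ) ^ 2 - 1 := by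
        rw [abs_mul, abs_pow, abs_neg, abs_one, one_pow, one_mul, abs_of_nonneg hA,
          abs_of_nonneg hB]
        ring

theorem tau_pos (d : ℕ) (hd : 3 ≤ d) (k : ℕ) (hk : 1 ≤ k) : 0 < tau d k := by
  have h3 : (3 : ℝ) ≤ d := by exact_mod_cast hd
  have h1 : (0 : ℝ) < (d : ℝ) - 1 := by linarith
  have hp : (0 : ℝ) < ((d : ℝ) - 1) ^ (k + 1) := by positivity
  have hpk : ((d : ℝ) - 1) < ((d : ℝ) - 1) ^ (k + 1) := by
    have : (1 : ℝ) < ((d : ℝ) - 1) ^ k := one_lt_pow₀ (by linarith) (by omega)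
    rw [pow_succ]
    nlinarith
  have hB : (0 : ℝ) ≤ (d : ℝ) * (d + 1) / 2 - 1 := by nlinarith
  have hs : (-1 : ℝ) ≤ (-1) ^ (k + 1) := by
    rcases neg_one_pow_eq_or ℝ (k + 1) with h | h <;> rw [h] <;> norm_num
  have e : tau d k = (((d : ℝ) - 1) ^ (k + 1) +
      ((d : ℝ) * (d - 1) / 2 + (-1) ^ (k + 1) * ((d : ℝ) * (d + 1) / 2 - 1))) /
      ((d : ℝ) - 1) ^ (k + 1) := by
    unfold tau
    field_simp
  rw [e]
  apply div_pos _ hp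
  have := mul_le_mul_of_nonneg_right hs hB
  nlinarith

theorem st_SERT : ST_SERT := by
  intro d hd
  have h3 : (3 : ℝ) ≤ d := by exact_mod_cast hd
  have h1 : (0 : ℝ) < (d : ℝ) - 1 := by linarith
  refine ⟨?_, tau_pos d hd, lam_pos d hd, fun K => ?_⟩
  · unfold tau
    field_simp
    ring
  · have hr0 : (0 : ℝ) ≤ 1 / ((d : ℝ) - 1) := by positivity
    have hr1 : 1 / ((d : ℝ) - 1) < 1 := by
      rw [div_lt_one h1]; linarith
    have hA : (0 : ℝ) ≤ (d : ℝ) ^ 2 - 1 := by nlinarith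
    obtain ⟨C, hC, h⟩ := bern ((d : ℝ) ^ 2 - 1) hA K
    refine Summable.of_norm_bounded
      (g := fun k : ℕ => C * ((d : ℝ) ^ 2 - 1) ^ 2 * (1 / ((d : ℝ) - 1)) *
        (1 / ((d : ℝ) - 1)) ^ k)
      ((summable_geometric_of_lt_one hr0 hr1).mul_left _) (fun k => ?_)
    have hd' := tau_sub_abs d hd k
    have hd4 : |tau d k - 1| ≤ (d : ℝ) ^ 2 - 1 := by
      refine hd'.trans ?_
      have : (1 / ((d : ℝ) - 1)) ^ (k + 1) ≤ 1 := pow_le_one₀ hr0 hr1.le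
      nlinarith
    have h1' := h (tau d k - 1) hd4
    have h2 : (1 : ℝ) + (tau d k - 1) = tau d k := by ring
    rw [h2] at h1'
    have h3' : (tau d k - 1) ^ 2 ≤
        (((d : ℝ) ^ 2 - 1) * (1 / ((d : ℝ) - 1)) ^ (k + 1)) ^ 2 := by
      calc (tau d k - 1) ^ 2 = |tau d k - 1| ^ 2 := (sq_abs _).symm
        _ ≤ (((d : ℝ) ^ 2 - 1) * (1 / ((d : ℝ) - 1)) ^ (k + 1)) ^ 2 := by gcongr
    have h4 : ((d : ℝ) - 1) ^ (k + 1) *
        (((d : ℝ) ^ 2 - 1) * (1 / ((d : ℝ) - 1)) ^ (k + 1)) ^ 2 =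
        ((d : ℝ) ^ 2 - 1) ^ 2 * (1 / ((d : ℝ) - 1)) * (1 / ((d : ℝ) - 1)) ^ k := by
      have e1 : ((d : ℝ) - 1) ^ (k + 1) * (1 / ((d : ℝ) - 1)) ^ (k + 1) = 1 := by
        rw [← mul_pow, mul_one_div_cancel h1.ne', one_pow]
      calc ((d : ℝ) - 1) ^ (k + 1) * (((d : ℝ) ^ 2 - 1) * (1 / ((d : ℝ) - 1)) ^ (k + 1)) ^ 2
          = ((d : ℝ) ^ 2 - 1) ^ 2 *
            (((d : ℝ) - 1) ^ (k + 1) * (1 / ((d : ℝ) - 1)) ^ (k + 1)) *
            (1 / ((d : ℝ) - 1)) ^ (k + 1) := by ring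
        _ = _ := by rw [e1, pow_succ]; ring
    rw [Real.norm_eq_abs, abs_mul, abs_of_nonneg (lam_pos d hd k).le]
    calc lam d k * |tau d k ^ K - 1 - K * (tau d k - 1)|
        ≤ ((d : ℝ) - 1) ^ (k + 1) * (C * (tau d k - 1) ^ 2) := by
          exact mul_le_mul (lam_le d hd k) h1' (abs_nonneg _) (by positivity)
      _ ≤ ((d : ℝ) - 1) ^ (k + 1) * (C * (((d : ℝ) ^ 2 - 1) *
            (1 / ((d : ℝ) - 1)) ^ (k + 1)) ^ 2) := by gcongr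
      _ = C * (((d : ℝ) - 1) ^ (k + 1) * (((d : ℝ) ^ 2 - 1) *
            (1 / ((d : ℝ) - 1)) ^ (k + 1)) ^ 2) := by ring
      _ = C * ((d : ℝ) ^ 2 - 1) ^ 2 * (1 / ((d : ℝ) - 1)) * (1 / ((d : ℝ) - 1)) ^ k := by
          rw [h4]; ring

end Pool.Agent.Helper19.T6
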